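import Mathlib

open MeasureTheory Set Filter Metric
open scoped ENNReal

namespace Pool.Agent.Results.MP_135240_an.NoJoint

section Defs
variable {X : Type} [MetricSpace X] [MeasurableSpace X]

/-- The centred maximal operator. -/
noncomputable def Hstar (μ : Measure X) (f : X → ℝ) (x : X) : ℝ≥0∞ :=
  ⨆ (r : ℝ) (_ : 0 < r), (μ (ball x r))⁻¹ * ∫⁻ y in ball x r, ‖f y‖ₑ ∂μ

/-- The Hardy-Littlewood property. -/
def HL (μ : Measure X) : Prop :=
  ∃ C : ℝ, 1 ≤ C ∧ ∀ f : X → ℝ, Integrable f μ → ∀ ε : ℝ, 0 < ε →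
    μ {x | ENNReal.ofReal ε ≤ Hstar μ f x} ≤ ENNReal.ofReal (C * (∫ x, |f x| ∂μ) / ε)

/-- Ergodic averages. -/
noncomputable def A (T : X → X) (k : ℕ) (f : X → ℝ) (x : X) : ℝ :=
  (∑ j ∈ Finset.range k, f (T^[j] x)) / k

/-- Ball averages of ergodic averages. -/
noncomputable def U (μ : Measure X) (T : X → X) (r : ℝ) (k : ℕ) (f : X → ℝ) (x : X) : ℝ :=
  (∫ y in ball x r, A T k f y ∂μ) / μ.real (ball x r)

/-- The joint limit as `r ↘ 0`, `k → ∞` exists and equals `L`. -/
def JointLim (μ : Measure X) (T : X → X) (f : X → ℝ) (x : X) (L : ℝ) : Prop :=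
  ∀ ε : ℝ, 0 < ε → ∃ r₀ : ℝ, 0 < r₀ ∧ ∃ K : ℕ, ∀ (r : ℝ) (k : ℕ), 0 < r → r < r₀ → K ≤ k →
    |U μ T r k f x - L| < ε

end Defs

/-- The space. -/
abbrev Sp : Type := ℝ × ℝ × ℝ

theorem hl (μ : Measure Sp) : HL μ := by
  obtain ⟨N, τ, hτ, hN⟩ := HasBesicovitchCovering.no_satelliteConfig (α := Sp)
  refine ⟨2 * N + 1, by linarith [Nat.cast_nonneg (α := ℝ) N], fun f hf ε hε => ?_⟩
  let S : ℕ → Set Sp := fun n => {x | ∃ r : ℝ, 0 < r ∧ r ≤ n ∧
    ENNReal.ofReal (ε / 2) * μ (ball x r) ≤ ∫⁻ y in ball x r, ‖f y‖ₑ ∂μ}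
  have h1 : {x | ENNReal.ofReal ε ≤ Hstar μ f x} ⊆ ⋃ n, S n := fun x hx => by
    have h := lt_of_lt_of_le ((ENNReal.ofReal_lt_ofReal_iff hε).2 (half_lt_self hε)) hx
    obtain ⟨r, h⟩ := lt_iSup_iff.1 h
    obtain ⟨hr, h⟩ := lt_iSup_iff.1 h
    obtain ⟨n, hn⟩ := exists_nat_ge r
    exact mem_iUnion.2 ⟨n, r, hr, hn,
      ENNReal.mul_le_of_le_div (by rw [ENNReal.div_eq_inv_mul]; exact h.le)⟩
  have h2 : Monotone S := fun n m hnm x ⟨r, h0, h1, h2⟩ =>
    ⟨r, h0, h1.trans (by exact_mod_cast hnm), h2⟩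
  refine (measure_mono h1).trans ?_
  rw [h2.measure_iUnion]
  refine iSup_le fun n => ?_
  choose r h0 hr hb using fun x : S n => x.2
  obtain ⟨s, hs, hc⟩ := Besicovitch.exist_disjoint_covering_families hτ hN
    (⟨Subtype.val, r, h0, n, hr⟩ : Besicovitch.BallPackage (S n) Sp)
  have h3 : ∀ i, ENNReal.ofReal (ε / 2) * μ (⋃ j ∈ s i, ball (j : Sp) (r j)) ≤
      ∫⁻ y, ‖f y‖ₑ ∂μ := fun i => by
    have hd : (s i).PairwiseDisjoint fun j => ball (j : Sp) (r j) :=
      (hs i).mono fun j => ball_subset_closedBall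
    have hco := hd.countable_of_isOpen (fun j _ => isOpen_ball) fun j _ => nonempty_ball.2 (h0 j)
    refine le_trans ?_ (setLIntegral_le_lintegral (⋃ j ∈ s i, ball (j : Sp) (r j)) _)
    rw [lintegral_biUnion hco (fun j _ => measurableSet_ball) hd]
    refine (mul_le_mul_right (measure_biUnion_le μ hco _) _).trans ?_
    rw [← ENNReal.tsum_mul_left]
    exact ENNReal.tsum_le_tsum fun j => hb j
  have h4 : ENNReal.ofReal (ε / 2) * μ (S n) ≤ N * ∫⁻ y, ‖f y‖ₑ ∂μ := by
    have h5 : μ (S n) ≤ ∑ i, μ (⋃ j ∈ s i, ball (j : Sp) (r j)) := by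
      refine le_trans (measure_mono ?_) (measure_iUnion_fintype_le μ _)
      simpa only [Subtype.range_coe] using hc
    refine (mul_le_mul_right h5 _).trans ?_
    rw [Finset.mul_sum]
    refine (Finset.sum_le_sum fun i _ => h3 i).trans ?_
    simp
  have h6 : 0 ≤ ∫ x, |f x| ∂μ := integral_nonneg fun x => abs_nonneg _
  rw [← ofReal_integral_norm_eq_lintegral_enorm hf, ← ENNReal.ofReal_natCast,
    ← ENNReal.ofReal_mul (Nat.cast_nonneg _), mul_comm,
    ← ENNReal.le_div_iff_mul_le (Or.inl (by simpa using hε)) (Or.inl ENNReal.ofReal_ne_top),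
    ← ENNReal.ofReal_div_of_pos (half_pos hε)] at h4
  refine h4.trans (ENNReal.ofReal_le_ofReal ?_)
  simp only [Real.norm_eq_abs]
  rw [div_le_div_iff₀ (half_pos hε) hε]
  nlinarith [mul_nonneg h6 hε.le]

/-- Tower heights. -/
def Nn (i : ℕ) : ℕ := 2 ^ (i + 2 ^ i + 1)

instance (i : ℕ) : NeZero (Nn i) := ⟨by rw [Nn]; positivity⟩

/-- Index set of the atoms. -/
abbrev P : Type := Σ i : ℕ, ZMod (Nn i)

/-- Positions of the atoms. -/
noncomputable def a (p : P) : Sp :=
  (((Nat.log 2 p.2.val - p.1 : ℕ) : ℝ) * (1 / 2) ^ p.1, (1 / 2) ^ (p.1 + 1),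
    (1 / 2) ^ (p.1 + 1) / (p.2.val + 1))

theorem a_inj : Function.Injective a := by
  rintro ⟨i, j⟩ ⟨i', j'⟩ h
  simp only [a, Prod.mk.injEq] at h
  obtain rfl : i = i' := by
    simpa using pow_right_injective₀ (by norm_num) (by norm_num) h.2.1
  have h1 := h.2.2
  rw [div_eq_div_iff (by positivity) (by positivity), mul_right_inj' (by positivity)] at h1
  rw [ZMod.val_injective _ (show j.val = j'.val by exact_mod_cast (add_right_cancel h1).symm)]

/-- The cyclic shift in every tower. -/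
def σ : P ≃ P := Equiv.sigmaCongrRight fun _ => Equiv.subRight 1

/-- The transformation. -/
noncomputable def T : Sp → Sp := Function.extend a (a ∘ σ) id

/-- Masses of the atoms. -/
noncomputable def w (i : ℕ) : ℝ := (1 / 2) ^ (i + 2) / Nn i

theorem w_pos (i : ℕ) : 0 < w i := by
  have := NeZero.pos (Nn i)
  rw [w]; positivity

/-- The function. -/
noncomputable def F : Sp → ℝ :=
  Function.extend a (fun p => if p.2 = 0 then (3 / 4) ^ p.1 / w p.1 else 0) 0

/-- The segment. -/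
def e (t : ℝ) : Sp := (t, 0, 0)

/-- The measure. -/
noncomputable def μ : Measure Sp :=
  (2⁻¹ : ℝ≥0∞) • Measure.map e (volume.restrict (Icc 0 1)) +
    Measure.sum fun p : P => ENNReal.ofReal (w p.1) • Measure.dirac (a p)

theorem e_meas : Measurable e := by unfold e; fun_prop

theorem e_not (t : ℝ) : ¬ ∃ p, a p = e t := fun ⟨p, h⟩ => by
  have h1 : ((1 : ℝ) / 2) ^ (p.1 + 1) = 0 := congrArg (fun x : Sp => x.2.1) h
  simp at h1

theorem T_a (p : P) : T (a p) = a (σ p) := a_inj.extend_apply _ _ p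

theorem T_meas : Measurable T := measurable_id.measurable_of_countable_ne
  ((countable_range a).mono fun x hx => by_contra fun h => hx (Function.extend_apply' _ _ _ h).symm)

theorem F_meas : Measurable F := measurable_zero.measurable_of_countable_ne
  ((countable_range a).mono fun x hx => by_contra fun h => hx (Function.extend_apply' _ _ _ h).symm)

theorem F_nn (x : Sp) : 0 ≤ F x := by
  by_cases h : ∃ p, a p = x
  · obtain ⟨p, rfl⟩ := h
    have := w_pos p.1
    rw [F, a_inj.extend_apply]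
    split_ifs <;> positivity
  · rw [F, Function.extend_apply' _ _ _ h]; rfl

theorem mp : MeasurePreserving T μ μ := ⟨T_meas, by
  rw [μ, Measure.map_add _ _ T_meas, Measure.map_smul, Measure.map_map T_meas e_meas,
    Measure.map_sum T_meas.aemeasurable,
    show T ∘ e = e from funext fun t => Function.extend_apply' _ _ _ (e_not t),
    ← Measure.sum_comp_equiv σ fun p : P => ENNReal.ofReal (w p.1) • Measure.dirac (a p)]
  congr 2
  ext1 p
  rw [Measure.map_smul, Measure.map_dirac' T_meas, T_a]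
  rfl⟩

theorem lev (l : ℕ) : ∑' _ : ZMod (Nn l), ENNReal.ofReal (w l) =
    ENNReal.ofReal ((1 / 2) ^ (l + 2)) := by
  have := NeZero.pos (Nn l)
  rw [tsum_fintype, Finset.sum_const, Finset.card_univ, ZMod.card, nsmul_eq_mul,
    ← ENNReal.ofReal_natCast, ← ENNReal.ofReal_mul (Nat.cast_nonneg _), w,
    mul_div_cancel₀ _ (by positivity)]

theorem geo (i : ℕ) : ∑' l : ℕ, ENNReal.ofReal ((1 / 2) ^ (l + i + 2)) =
    ENNReal.ofReal ((1 / 2) ^ (i + 1)) := by
  have h := hasSum_geometric_two.mul_left ((1 / 2 : ℝ) ^ (i + 2))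
  have h1 : (fun l : ℕ => (1 / 2 : ℝ) ^ (l + i + 2)) = fun l => (1 / 2) ^ (i + 2) * (1 / 2) ^ l :=
    funext fun l => by ring
  rw [← ENNReal.ofReal_tsum_of_nonneg (fun _ => by positivity) (h1 ▸ h.summable), h1, h.tsum_eq]
  congr 1; ring

theorem app {s : Set Sp} (hs : MeasurableSet s) : μ s = 2⁻¹ * volume (e ⁻¹' s ∩ Icc 0 1) +
    ∑' l, ∑' j : ZMod (Nn l), ENNReal.ofReal (w l) * s.indicator 1 (a ⟨l, j⟩) := by
  rw [μ, Measure.add_apply, Measure.smul_apply, Measure.map_apply e_meas hs,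
    Measure.restrict_apply (e_meas hs), Measure.sum_apply _ hs, ENNReal.tsum_sigma']
  simp only [Measure.smul_apply, smul_eq_mul, Measure.dirac_apply' _ hs]

theorem prob : IsProbabilityMeasure μ := ⟨by
  rw [app MeasurableSet.univ]
  simp only [indicator_univ, Pi.one_apply, mul_one, lev]
  have := geo 0
  simp only [add_zero] at this
  rw [this]
  simp [ENNReal.ofReal_inv_of_pos, ENNReal.inv_two_add_inv_two]⟩

theorem F_int : Integrable F μ := ⟨F_meas.aestronglyMeasurable, by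
  rw [HasFiniteIntegral, μ, lintegral_add_measure, lintegral_smul_measure,
    lintegral_map F_meas.enorm e_meas, lintegral_sum_measure, ENNReal.tsum_sigma']
  have h1 : ∀ t, F (e t) = 0 := fun t => Function.extend_apply' _ _ _ (e_not t)
  have h2 : ∀ l, ∑' j : ZMod (Nn l), ∫⁻ x, ‖F x‖ₑ ∂(ENNReal.ofReal (w l) •
      Measure.dirac (a ⟨l, j⟩)) = ENNReal.ofReal ((3 / 4) ^ l) := fun l => by
    have := w_pos l
    rw [tsum_eq_single 0 fun j hj => by simp [F, a_inj.extend_apply, hj]]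
    rw [lintegral_smul_measure, lintegral_dirac, F, a_inj.extend_apply, if_pos rfl,
      Real.enorm_eq_ofReal (by positivity), smul_eq_mul, ← ENNReal.ofReal_mul this.le,
      mul_div_cancel₀ _ this.ne']
  simp only [h1, h2]
  rw [← ENNReal.ofReal_tsum_of_nonneg (fun _ => by positivity)
    (summable_geometric_of_lt_one (by norm_num) (by norm_num))]
  simp⟩

theorem small (t : ℝ) (i : ℕ) : μ.real (ball (e t) ((1 / 2) ^ i)) ≤ 2 * (1 / 2) ^ i := by
  refine ENNReal.toReal_le_of_le_ofReal (by positivity) ?_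
  rw [app measurableSet_ball]
  have h1 : volume (e ⁻¹' ball (e t) ((1 / 2) ^ i) ∩ Icc 0 1) ≤ 2 * ENNReal.ofReal ((1 / 2) ^ i) := by
    refine (measure_mono (t := ball t ((1 / 2) ^ i)) fun s hs => ?_).trans ?_
    · exact lt_of_le_of_lt (le_max_left _ _) (show dist (e s) (e t) < _ from hs.1)
    · rw [Real.volume_ball, ENNReal.ofReal_mul (by norm_num)]; simp
  have h2 : ∑' l, ∑' j : ZMod (Nn l), ENNReal.ofReal (w l) *
      (ball (e t) ((1 / 2) ^ i)).indicator 1 (a ⟨l, j⟩) ≤ ENNReal.ofReal ((1 / 2) ^ (i + 1)) := by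
    rw [← (ENNReal.summable).sum_add_tsum_nat_add' (k := i), Finset.sum_eq_zero, zero_add, ← geo]
    · refine ENNReal.tsum_le_tsum fun l => ?_
      rw [← lev]
      exact ENNReal.tsum_le_tsum fun j => mul_le_of_le_one_right' (indicator_le_self _ _ _)
    · intro l hl
      refine ENNReal.tsum_eq_zero.2 fun j => ?_
      rw [indicator_of_notMem, mul_zero]
      intro h
      have h3 : dist ((1 / 2 : ℝ) ^ (l + 1)) 0 < (1 / 2) ^ i :=
        lt_of_le_of_lt ((le_max_left _ _).trans (le_max_right _ _))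
          (show dist (a ⟨l, j⟩) (e t) < _ from h)
      rw [Real.dist_eq, sub_zero, abs_of_pos (by positivity)] at h3
      exact h3.not_ge (pow_le_pow_of_le_one (by norm_num) (by norm_num) (Finset.mem_range.1 hl))
  refine (add_le_add (mul_le_mul_right h1 _) h2).trans ?_
  rw [← mul_assoc, ENNReal.inv_mul_cancel (by norm_num) (by norm_num), one_mul,
    ← ENNReal.ofReal_add (by positivity) (by positivity)]
  refine ENNReal.ofReal_le_ofReal ?_
  rw [pow_succ]
  nlinarith [pow_pos (show (0 : ℝ) < 1 / 2 by norm_num) i]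

theorem iter (i n : ℕ) (j : ZMod (Nn i)) : T^[n] (a ⟨i, j⟩) = a ⟨i, j - n⟩ := by
  induction n with
  | zero => simp
  | succ n ih =>
    rw [Function.iterate_succ_apply', ih, T_a]
    change a ⟨i, j - n - 1⟩ = _
    rw [Nat.cast_succ, sub_sub]

theorem big {t : ℝ} (ht : t ∈ Icc (0 : ℝ) 1) (i : ℕ) :
    ∃ k, i ≤ k ∧ (3 / 2) ^ i / 4 ≤ U μ T ((1 / 2) ^ i) k F (e t) := by
  classical
  haveI := prob
  set s := ⌊t * 2 ^ i⌋₊ with hs
  have hp : (0 : ℝ) < (1 / 2) ^ i := by positivity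
  have h2 : (2 : ℝ) ^ i * (1 / 2) ^ i = 1 := by rw [← mul_pow]; simp
  have hs1 : s ≤ 2 ^ i := Nat.floor_le_of_le (by
    push_cast; nlinarith [ht.2, pow_pos (show (0 : ℝ) < 2 by norm_num) i])
  have hk : 2 ^ (i + s + 1) ≤ Nn i := Nat.pow_le_pow_right (by norm_num) (by omega)
  refine ⟨2 ^ (i + s + 1), (Nat.lt_two_pow_self.le.trans
    (Nat.pow_le_pow_right (by norm_num) (by omega))), ?_⟩
  set k := 2 ^ (i + s + 1) with hk'
  have hA : Integrable (A T k F) μ :=
    (integrable_finsetSum _ fun j _ => (mp.iterate j).integrable_comp_of_integrable F_int).div_const _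
  have hA0 : ∀ x, 0 ≤ A T k F x := fun x =>
    div_nonneg (Finset.sum_nonneg fun j _ => F_nn _) (Nat.cast_nonneg _)
  let G : Finset Sp := (Finset.Ico (2 ^ (i + s)) k).image fun j : ℕ => a ⟨i, (j : ZMod (Nn i))⟩
  have hw := w_pos i
  have hG : (G : Set Sp) ⊆ ball (e t) ((1 / 2) ^ i) := by
    intro x hx
    obtain ⟨j, hj, rfl⟩ := Finset.mem_image.1 hx
    rw [Finset.mem_Ico] at hj
    have h3 := Nat.floor_le (show 0 ≤ t * 2 ^ i by have := ht.1; positivity)
    have h4 := Nat.lt_floor_add_one (t * 2 ^ i)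
    simp only [mem_ball, a, e, Prod.dist_eq, Real.dist_eq, sub_zero, max_lt_iff,
      ZMod.val_natCast_of_lt (hj.2.trans_le hk), Nat.log_eq_of_pow_le_of_lt_pow hj.1 hj.2,
      add_tsub_cancel_left]
    have h5 : (1 / 2 : ℝ) ^ (i + 1) < (1 / 2) ^ i := by rw [pow_succ]; linarith
    have h6 := mul_le_mul_of_nonneg_right h3 hp.le
    have h7 := mul_lt_mul_of_pos_right h4 hp
    rw [mul_assoc, h2, ← hs] at h6 h7
    refine ⟨abs_lt.2 ⟨by linarith, by linarith⟩, by rwa [abs_of_pos (by positivity)], ?_⟩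
    rw [abs_of_pos (by positivity)]
    exact (div_le_self (by positivity) (by linarith [Nat.cast_nonneg (α := ℝ) j])).trans_lt h5
  have hG1 : 2 ^ (i + s) * w i ≤ μ.real G := by
    rw [← sum_measureReal_singleton]
    have h3 : G.card = 2 ^ (i + s) := by
      rw [Finset.card_image_of_injOn, Nat.card_Ico, hk', pow_succ]
      · omega
      · intro j hj j' hj' h
        have h4 := congrArg ZMod.val (eq_of_heq (Sigma.mk.inj (a_inj h)).2)
        rwa [ZMod.val_natCast_of_lt ((Finset.mem_Ico.1 hj).2.trans_le hk),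
          ZMod.val_natCast_of_lt ((Finset.mem_Ico.1 hj').2.trans_le hk)] at h4
    refine le_trans (by rw [h3]; simp) (Finset.card_nsmul_le_sum G _ (w i) fun x hx => ?_)
    obtain ⟨j, -, rfl⟩ := Finset.mem_image.1 hx
    refine (ENNReal.ofReal_le_iff_le_toReal (measure_ne_top _ _)).1 ?_
    refine le_trans ?_ (((Measure.le_sum _ ⟨i, j⟩).trans (Measure.le_add_left le_rfl)) _)
    simp
  have hG2 : ∀ x ∈ (G : Set Sp), (3 / 4) ^ i / w i / k ≤ A T k F x := by
    intro x hx
    obtain ⟨j, hj, rfl⟩ := Finset.mem_image.1 hx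
    refine div_le_div_of_nonneg_right (le_trans ?_ (Finset.single_le_sum
      (f := fun n => F (T^[n] (a ⟨i, j⟩))) (fun n _ => F_nn _)
      (Finset.mem_range.2 (Finset.mem_Ico.1 hj).2))) (Nat.cast_nonneg _)
    simp only [iter, sub_self, F, a_inj.extend_apply, if_true, le_refl]
  have h3 := (setIntegral_ge_of_const_le_real G.measurableSet (measure_ne_top _ _) hG2
    hA.integrableOn).trans (setIntegral_mono_set hA.integrableOn (Eventually.of_forall hA0)
      hG.eventuallyLE)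
  have h4 : (3 / 4) ^ i / 2 ≤ (3 / 4) ^ i / w i / k * μ.real G := by
    refine le_trans (le_of_eq ?_) (mul_le_mul_of_nonneg_left hG1 (by positivity))
    rw [hk']; push_cast; field_simp; ring
  have h5 : 0 < μ.real (ball (e t) ((1 / 2) ^ i)) :=
    lt_of_lt_of_le (by positivity) (hG1.trans (measureReal_mono hG))
  rw [U, le_div_iff₀ h5]
  have h6 : (3 / 2 : ℝ) ^ i * (1 / 2) ^ i = (3 / 4) ^ i := by rw [← mul_pow]; norm_num
  nlinarith [mul_le_mul_of_nonneg_left (small t i) (show (0 : ℝ) ≤ (3 / 2) ^ i by positivity)]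

theorem result : ∃ (X : Type) (_ : MetricSpace X) (_ : MeasurableSpace X) (_ : BorelSpace X)
    (m : Measure X) (S : X → X) (f : X → ℝ), IsProbabilityMeasure m ∧ MeasurePreserving S m m ∧
      HL m ∧ Integrable f m ∧ ¬ ∀ᵐ x ∂m, ∃ L : ℝ, JointLim m S f x L := by
  refine ⟨Sp, inferInstance, inferInstance, inferInstance, μ, T, F, prob, mp, hl μ, F_int,
    fun h => ?_⟩
  rw [μ, ae_add_measure_iff, Measure.ae_ennreal_smul_measure_iff (by simp)] at h
  haveI : (ae (volume.restrict (Icc (0 : ℝ) 1))).NeBot := ae_neBot.2 (by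
    rw [Ne, Measure.restrict_eq_zero]; simp)
  obtain ⟨t, ⟨L, hL⟩, ht⟩ := ((ae_of_ae_map e_meas.aemeasurable h.1).and
    (ae_restrict_mem measurableSet_Icc)).exists
  obtain ⟨r, hr, K, hK⟩ := hL 1 one_pos
  have h1 := (tendsto_pow_atTop_nhds_zero_of_lt_one (show (0 : ℝ) ≤ 1 / 2 by norm_num)
    (by norm_num)).eventually (gt_mem_nhds hr)
  have h2 := (tendsto_pow_atTop_atTop_of_one_lt (show (1 : ℝ) < 3 / 2 by norm_num)).eventually
    (eventually_ge_atTop (4 * (L + 1)))
  obtain ⟨i, ⟨h3, h4⟩, h5⟩ := ((h1.and h2).and (eventually_ge_atTop K)).exists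
  obtain ⟨k, hk, h6⟩ := big ht i
  have h7 := (abs_lt.1 (hK _ k (by positivity) h3 (h5.trans hk))).2
  rw [← μ] at h7
  linarith

end Pool.Agent.Results.MP_135240_an.NoJoint
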